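import Pool.Agent.U331.FS.W
import Pool.Agent.Results.MP_93d8d2_nt.MiddleEntriesRate

/-!
# Towers of height three: middle entries near ALL integral combinations of an infinite sequence in every dense set

Let `(v_j, c_j)` be any sequence of pairs of complex numbers with `v_j ≠ 0` and `c_j` algebraic and not rational, and let `(a_j, b_j)` be any
sequence of pairs of real numbers with `a_j > 0`, `a_j ≠ 1` and `b_j` algebraic and irrational (for example an enumeration of ALL pairs
of algebraic numbers of this kind). We show that EVERY set `B` of positive integers of positive lower density contains an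
infinite sequence `x_0, x_1, …` such that for ALL nonzero integral vectors `u` with finite support and entries of
absolute value at most `H`, with largest index `n`, for ALL integers `k ≥ 1` with `|k - |∑ uᵢ xᵢ|| ≤ n` and ALL `j ≤ n` the number
`v_j k ^ (c_j)` is not a linear form in `1` and logarithms of algebraic numbers, with algebraic coefficients, and the number
`a_j ^ (k ^ (b_j))` is free (in particular transcendental). There is no exception among the infinitely many combinations.

Proof: a greedy choice. At the step `n` there are at most `(2 H + 1) ^ (n + 1)` conditions for the new term, each of them excludes at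
most twice as many integers as there are integers near the exceptions of the starting result `MiddleEntriesRate` for the first
`n + 1` pairs, and these have density zero (`Pool.Agent.U331.FS`).
-/

set_option autoImplicit false

namespace Pool.Agent.Results.MP_93d8d2_nt.AllCombinations

open Finset Filter Topology
open Pool.Agent.U331.FS (AllSumsDens all_sums_dens count_windows)
open Pool.Agent.Results.MP_93d8d2_nt.MiddleEntriesRate (LogForm Free)

/-- For ALL `j ≤ n` and ALL integers `k ≥ 1` with `|k - w| ≤ n` the number `v_j k ^ (c_j)` is not a linear form in `1` and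
logarithms of algebraic numbers, and the number `a_j ^ (k ^ (b_j))` is free. -/
def Near (v c : ℕ → ℂ) (a b : ℕ → ℝ) (n w : ℕ) : Prop :=
  ∀ k : ℕ, |(k : ℤ) - w| ≤ n → 1 ≤ k → ∀ j ≤ n,
    ¬ LogForm (v j * Complex.exp (c j * ((Real.log k : ℝ) : ℂ))) ∧ Free (a j ^ ((k : ℝ) ^ b j))

/-- the limit of the bounds of the starting result -/
lemma small (C : ℝ) (ε : ℝ) (hε : 0 < ε) : ∃ X₀ : ℕ, ∀ X : ℕ, X₀ ≤ X →
    C * X * Real.log (Real.log X) ^ 3 / Real.log X ≤ ε * X := by
  have h1 : Tendsto (fun X : ℕ => Real.log (Real.log X) ^ 3 / Real.log X) atTop (𝓝 0) := by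
    have h2 := (Real.isLittleO_pow_log_id_atTop (n := 3)).tendsto_div_nhds_zero
    exact h2.comp (Real.tendsto_log_atTop.comp tendsto_natCast_atTop_atTop)
  have h3 : Tendsto (fun X : ℕ => C * (Real.log (Real.log X) ^ 3 / Real.log X)) atTop (𝓝 0) := by
    simpa using h1.const_mul C
  obtain ⟨X₀, hX₀⟩ := eventually_atTop.mp (h3.eventually (gt_mem_nhds hε))
  refine ⟨X₀, fun X hX => ?_⟩
  have h4 := hX₀ X hX
  calc C * X * Real.log (Real.log X) ^ 3 / Real.log X = (C * (Real.log (Real.log X) ^ 3 / Real.log X)) * X := by ring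
    _ ≤ ε * X := mul_le_mul_of_nonneg_right h4.le (Nat.cast_nonneg _)

/-- **Theorem.** For all sequences of pairs `(v_j, c_j)`, `(a_j, b_j)` as above the property `Near v c a b n w` holds for all
combinations `w` with bounded coefficients and largest index `n` of an infinite sequence in every set of positive lower
density (`AllSumsDens`). -/
theorem result (v c : ℕ → ℂ) (hv : ∀ j, v j ≠ 0) (hc : ∀ j, IsAlgebraic ℚ (c j)) (hc' : ∀ j, ∀ r : ℚ, c j ≠ r)
    (a b : ℕ → ℝ) (ha : ∀ j, 0 < a j) (ha' : ∀ j, a j ≠ 1) (hb : ∀ j, IsAlgebraic ℚ (b j)) (hb' : ∀ j, Irrational (b j)) :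
    AllSumsDens (fun n _ w => Near v c a b n w) := by
  classical
  obtain ⟨C, hC, h1, h2⟩ := MiddleEntriesRate.result
  apply all_sums_dens
  intro n ε hε
  obtain ⟨X₀, hX₀⟩ := small C (ε / (4 * (n + 1) * (2 * n + 1))) (by positivity)
  refine ⟨max X₀ (n + 16), fun X hX => ?_⟩
  have g1 : X₀ ≤ X := (le_max_left _ _).trans hX
  have g2 : n + 16 ≤ X := (le_max_right _ _).trans hX
  have hw := count_windows X n (fun k : ℕ => 1 ≤ k → ∀ j ≤ n,
    ¬ LogForm (v j * Complex.exp (c j * ((Real.log k : ℝ) : ℂ))) ∧ Free (a j ^ ((k : ℝ) ^ b j)))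
  have h3 : ((range (X + n + 1)).filter (fun k : ℕ => ¬ (1 ≤ k → ∀ j ≤ n,
      ¬ LogForm (v j * Complex.exp (c j * ((Real.log k : ℝ) : ℂ))) ∧ Free (a j ^ ((k : ℝ) ^ b j))))).card ≤
      ∑ j ∈ range (n + 1), (((Icc 1 (X + n)).filter
        (fun k : ℕ => LogForm (v j * Complex.exp (c j * ((Real.log k : ℝ) : ℂ))))).card +
        ((Icc 1 (X + n)).filter (fun k : ℕ => ¬ Free (a j ^ ((k : ℝ) ^ b j)))).card) := by
    refine le_trans (card_le_card (t := (range (n + 1)).biUnion fun j => ((Icc 1 (X + n)).filter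
        (fun k : ℕ => LogForm (v j * Complex.exp (c j * ((Real.log k : ℝ) : ℂ))))) ∪
        ((Icc 1 (X + n)).filter (fun k : ℕ => ¬ Free (a j ^ ((k : ℝ) ^ b j))))) ?_)
      (card_biUnion_le.trans (sum_le_sum fun j _ => card_union_le _ _))
    intro k hk
    rw [mem_filter, mem_range] at hk
    obtain ⟨hk1, hk2⟩ := hk
    push Not at hk2
    obtain ⟨hk3, j, hj, hk4⟩ := hk2
    rw [mem_biUnion]
    refine ⟨j, mem_range.2 (by omega), ?_⟩
    rw [mem_union, mem_filter, mem_filter, mem_Icc]
    by_cases hl : LogForm (v j * Complex.exp (c j * ((Real.log k : ℝ) : ℂ)))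
    · exact Or.inl ⟨⟨hk3, by omega⟩, hl⟩
    · exact Or.inr ⟨⟨hk3, by omega⟩, hk4 hl⟩
  have h4 : ∀ j ∈ range (n + 1), (((((Icc 1 (X + n)).filter
        (fun k : ℕ => LogForm (v j * Complex.exp (c j * ((Real.log k : ℝ) : ℂ))))).card +
        ((Icc 1 (X + n)).filter (fun k : ℕ => ¬ Free (a j ^ ((k : ℝ) ^ b j)))).card : ℕ)) : ℝ) ≤
      2 * (ε / (4 * (n + 1) * (2 * n + 1)) * ((X + n : ℕ) : ℝ)) := by
    intro j _
    have e1 := h1 (v j) (c j) (hv j) (hc j) (hc' j) (X + n) (by omega)
    have e2 := h2 (a j) (b j) (ha j) (ha' j) (hb j) (hb' j) (X + n) (by omega)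
    have e3 := hX₀ (X + n) (by omega)
    rw [Nat.cast_add]
    have e4 : (((Icc 1 (X + n)).filter
        (fun k : ℕ => LogForm (v j * Complex.exp (c j * ((Real.log k : ℝ) : ℂ))))).card : ℝ) ≤
        ε / (4 * (n + 1) * (2 * n + 1)) * ((X + n : ℕ) : ℝ) := by
      refine le_trans ?_ (e1.trans e3)
      convert le_refl _ using 3
    have e5 : (((Icc 1 (X + n)).filter (fun k : ℕ => ¬ Free (a j ^ ((k : ℝ) ^ b j)))).card : ℝ) ≤
        ε / (4 * (n + 1) * (2 * n + 1)) * ((X + n : ℕ) : ℝ) := by
      refine le_trans ?_ (e2.trans e3)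
      convert le_refl _ using 3
    linarith
  have h5 : ((X + n : ℕ) : ℝ) ≤ 2 * X := by
    have h5 : X + n ≤ 2 * X := by omega
    exact_mod_cast h5
  have h6 : (((range (X + n + 1)).filter (fun k : ℕ => ¬ (1 ≤ k → ∀ j ≤ n,
      ¬ LogForm (v j * Complex.exp (c j * ((Real.log k : ℝ) : ℂ))) ∧ Free (a j ^ ((k : ℝ) ^ b j))))).card : ℝ) ≤
      ε * X / (2 * n + 1) := by
    calc (((range (X + n + 1)).filter (fun k : ℕ => ¬ (1 ≤ k → ∀ j ≤ n,
          ¬ LogForm (v j * Complex.exp (c j * ((Real.log k : ℝ) : ℂ))) ∧ Free (a j ^ ((k : ℝ) ^ b j))))).card : ℝ)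
        ≤ ((∑ j ∈ range (n + 1), (((Icc 1 (X + n)).filter
        (fun k : ℕ => LogForm (v j * Complex.exp (c j * ((Real.log k : ℝ) : ℂ))))).card +
        ((Icc 1 (X + n)).filter (fun k : ℕ => ¬ Free (a j ^ ((k : ℝ) ^ b j)))).card) : ℕ) : ℝ) := by
          exact_mod_cast h3
      _ ≤ ∑ j ∈ range (n + 1), 2 * (ε / (4 * (n + 1) * (2 * n + 1)) * ((X + n : ℕ) : ℝ)) := by
          rw [Nat.cast_sum]
          exact sum_le_sum h4
      _ = (n + 1) * (2 * (ε / (4 * (n + 1) * (2 * n + 1)) * ((X + n : ℕ) : ℝ))) := by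
          rw [sum_const, card_range, nsmul_eq_mul]
          push_cast
          ring
      _ ≤ (n + 1) * (2 * (ε / (4 * (n + 1) * (2 * n + 1)) * (2 * X))) := by
          gcongr
      _ = ε * X / (2 * n + 1) := by
          field_simp
          ring
  calc ({m : ℕ | 1 ≤ m ∧ m ≤ X ∧ ¬ Near v c a b n m}.ncard : ℝ)
      ≤ ((((range (X + n + 1)).filter (fun k : ℕ => ¬ (1 ≤ k → ∀ j ≤ n,
      ¬ LogForm (v j * Complex.exp (c j * ((Real.log k : ℝ) : ℂ))) ∧ Free (a j ^ ((k : ℝ) ^ b j))))).card * (2 * n + 1) : ℕ) : ℝ) := by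
        exact Nat.cast_le.2 hw
    _ = (((range (X + n + 1)).filter (fun k : ℕ => ¬ (1 ≤ k → ∀ j ≤ n,
      ¬ LogForm (v j * Complex.exp (c j * ((Real.log k : ℝ) : ℂ))) ∧ Free (a j ^ ((k : ℝ) ^ b j))))).card : ℝ) * (2 * n + 1) := by
        push_cast
        ring
    _ ≤ ε * X / (2 * n + 1) * (2 * n + 1) := mul_le_mul_of_nonneg_right h6 (by positivity)
    _ = ε * X := by field_simp

end Pool.Agent.Results.MP_93d8d2_nt.AllCombinations
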